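import Mathlib
import Pool.Agent.W635.LotsMain

/-!
# MP_6f3246_lc: a six element basis for the aleph_1-dense LOTS with countable character

Under PFA the uncountable linear orders have a five element basis (Moore):
`X, ω₁, ω₁*, C, C*`, for every set of reals `X` of size `ℵ₁` and a Countryman line `C`.
`FiveElementBasis` is this statement. It is shown here (in ZFC) that it implies that the class
`𝒞` of the problem has a basis of (at most) six elements for LOTS embeddings: a suitable set of
reals `E` of size `ℵ₁`, and for each of the five orders `D` the set `A_D` of all eventually
constant sequences in `{-1, 0} + D` (with eventual value `0`), ordered lexicographically.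
-/

set_option autoImplicit false

namespace Pool.Agent.Results.MP_6f3246_lc.SixElementBasis

open Pool.Agent.W635.LOTS

/-- The five element basis theorem for uncountable linear orders implies that there are six
members `B 0, …, B 5` of the class `𝒞` (`ℵ₁`-dense orders all of whose points have countable
cofinality and coinitiality) such that one of them LOTS-embeds into each member of `𝒞`. -/
theorem result (h : FiveElementBasis) :
    ∃ (B : Fin 6 → Type) (_ : ∀ i, LinearOrder (B i)),
      (∀ i, InC (B i)) ∧ ∀ (L : Type) (_ : LinearOrder L), InC L → ∃ i, LotsEmb (B i) L :=
  main h

end Pool.Agent.Results.MP_6f3246_lc.SixElementBasis
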